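import Mathlib
import Pool.Agent.Work.MP_88f784_lc.Defs
import Pool.Agent.Work.MP_88f784_lc.Main
import Pool.Agent.Work.MP_88f784_lc.Converse

/-!
Equivalence via 1-1, length-nondecreasing, p-invertible reductions implies p-isomorphism if and
only if P = PSPACE.
-/

namespace Pool.Agent.Results.MP_88f784_lc.IffPeqPSPACE

open Pool.Agent.Work.MP_88f784_lc

theorem result : (∀ A B : Set (List Bool), LNEquivalent A B → PIsomorphic A B) ↔
    ∀ L : Set (List Bool), InPSPACE L ↔ InP L := by
  constructor
  · intro Q L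
    refine ⟨pspace_of_iso Q L, fun h => ?_⟩
    obtain ⟨d, hd, h⟩ := h
    exact inPSPACE_of_inP ⟨d, Pool.Agent.Work.MP_0532f7_lc.PolyTime.fp hd, h⟩
  · intro H A B h
    exact iso_of_pspace (fun L hL => (H L).mp hL) A B h

end Pool.Agent.Results.MP_88f784_lc.IffPeqPSPACE
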